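import Pool.Agent.Helper1.RG.Defs

/-! Project RG (MP_c9c10f): rows A1 and A2, algebra in the localisation of the Gaussian integers
at the prime `2 - i`. -/

set_option autoImplicit false

namespace Pool.Agent.Helper8.RG

open Complex Pool.Agent.Helper1.RG
open scoped ComplexConjugate

/-- divisibility by `2 - i` in coordinates -/
theorem dvd_iff (s : GaussianInt) :
    ((⟨2, -1⟩ : GaussianInt) ∣ s) ↔ (5 : ℤ) ∣ s.re + 2 * s.im := by
  constructor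
  · rintro ⟨t, rfl⟩
    refine ⟨t.im, ?_⟩
    simp only [Zsqrtd.re_mul, Zsqrtd.im_mul]
    ring
  · rintro ⟨d, hd⟩
    refine ⟨⟨2 * d - s.im, d⟩, ?_⟩
    apply Zsqrtd.ext
    · simp only [Zsqrtd.re_mul]
      linarith
    · simp only [Zsqrtd.im_mul]
      linarith

theorem not_dvd_one : ¬ ((⟨2, -1⟩ : GaussianInt) ∣ 1) := by
  rw [dvd_iff]
  simp

theorem not_dvd_ga : ¬ ((⟨2, -1⟩ : GaussianInt) ∣ ⟨2, 1⟩) := by
  rw [dvd_iff]
  norm_num

theorem not_dvd_mul {s t : GaussianInt} (hs : ¬ ((⟨2, -1⟩ : GaussianInt) ∣ s))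
    (ht : ¬ ((⟨2, -1⟩ : GaussianInt) ∣ t)) : ¬ ((⟨2, -1⟩ : GaussianInt) ∣ s * t) := by
  rw [dvd_iff] at *
  intro h
  have h5 : Prime (5 : ℤ) := by norm_num
  have h1 : (5 : ℤ) ∣ (s.re + 2 * s.im) * (t.re + 2 * t.im) := by
    simp only [Zsqrtd.re_mul, Zsqrtd.im_mul] at h
    obtain ⟨c, hc⟩ := h
    exact ⟨c + s.im * t.im, by linarith⟩
  rcases h5.dvd_or_dvd h1 with h | h
  · exact hs h
  · exact ht h

theorem ne_zero_of_not_dvd {s : GaussianInt} (hs : ¬ ((⟨2, -1⟩ : GaussianInt) ∣ s)) :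
    GaussianInt.toComplex s ≠ 0 := by
  intro h
  rw [GaussianInt.toComplex_eq_zero] at h
  exact hs (h ▸ dvd_zero _)

theorem toC_ga : GaussianInt.toComplex ⟨2, 1⟩ = ga := by
  rw [GaussianInt.toComplex_def']
  simp [ga]

theorem toC_gb : GaussianInt.toComplex ⟨2, -1⟩ = gb := by
  rw [GaussianInt.toComplex_def']
  simp [gb, sub_eq_add_neg]

theorem RR_of_gauss (a : GaussianInt) : GaussianInt.toComplex a ∈ RR :=
  ⟨a, 1, not_dvd_one, by simp⟩

theorem ZI_sub_RR {z : ℂ} (hz : z ∈ ZI) : z ∈ RR := by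
  obtain ⟨a, b, rfl⟩ := hz
  have h := RR_of_gauss ⟨a, b⟩
  rwa [GaussianInt.toComplex_def'] at h

theorem RR_add {x y : ℂ} (hx : x ∈ RR) (hy : y ∈ RR) : x + y ∈ RR := by
  obtain ⟨a, s, hs, h⟩ := hx
  obtain ⟨b, t, ht, h'⟩ := hy
  refine ⟨a * t + b * s, s * t, not_dvd_mul hs ht, ?_⟩
  rw [map_add, map_mul, map_mul, map_mul, ← h, ← h']
  ring

theorem RR_sub {x y : ℂ} (hx : x ∈ RR) (hy : y ∈ RR) : x - y ∈ RR := by
  obtain ⟨a, s, hs, h⟩ := hx
  obtain ⟨b, t, ht, h'⟩ := hy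
  refine ⟨a * t - b * s, s * t, not_dvd_mul hs ht, ?_⟩
  rw [map_sub, map_mul, map_mul, map_mul, ← h, ← h']
  ring

theorem RR_mul {x y : ℂ} (hx : x ∈ RR) (hy : y ∈ RR) : x * y ∈ RR := by
  obtain ⟨a, s, hs, h⟩ := hx
  obtain ⟨b, t, ht, h'⟩ := hy
  refine ⟨a * b, s * t, not_dvd_mul hs ht, ?_⟩
  rw [map_mul, map_mul, ← h, ← h']
  ring

theorem one_RR : (1 : ℂ) ∈ RR := by
  have h := RR_of_gauss 1
  rwa [map_one] at h

theorem ga_RR : ga ∈ RR := toC_ga ▸ RR_of_gauss _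

theorem gb_RR : gb ∈ RR := toC_gb ▸ RR_of_gauss _

theorem RR_pow {x : ℂ} (hx : x ∈ RR) (n : ℕ) : x ^ n ∈ RR := by
  induction n with
  | zero => rw [pow_zero]; exact one_RR
  | succ n ih => rw [pow_succ]; exact RR_mul ih hx

theorem ga_ne : ga ≠ 0 := by
  rw [← toC_ga]
  exact ne_zero_of_not_dvd not_dvd_ga

theorem ga_mul_gb : ga * gb = 5 := by
  unfold ga gb
  have : I * I = -1 := I_mul_I
  linear_combination (-1 : ℂ) * this

theorem gb_ne : gb ≠ 0 := by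
  intro h
  have := ga_mul_gb
  rw [h, mul_zero] at this
  norm_num at this

theorem ga_inv_RR : ga⁻¹ ∈ RR := by
  refine ⟨1, ⟨2, 1⟩, not_dvd_ga, ?_⟩
  rw [toC_ga, map_one, inv_mul_cancel₀ ga_ne]

theorem gb_mul_kk : gb * kk = ga := by
  unfold kk
  rw [mul_div_cancel₀ _ gb_ne]

theorem gb_pow_kk (j : ℕ) : gb ^ j * kk ^ j = ga ^ j := by
  rw [← mul_pow, gb_mul_kk]

theorem gb_div_five : gb / 5 = ga⁻¹ := by
  rw [← ga_mul_gb]
  have h1 := ga_ne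
  have h2 := gb_ne
  field_simp

theorem gb_xj (j : ℕ) : gb ^ (j + 1) * xj j = ga ^ j * ga⁻¹ := by
  unfold xj
  rw [← gb_div_five, ← gb_pow_kk]
  ring

theorem RR_sub_QI {x : ℂ} (hx : x ∈ RR) : x ∈ QI := by
  obtain ⟨a, s, hs, h⟩ := hx
  have hs0 := ne_zero_of_not_dvd hs
  have hn : (s.re : ℚ) ^ 2 + (s.im : ℚ) ^ 2 ≠ 0 := by
    intro h0
    apply hs0
    have h1 : (s.re : ℚ) = 0 := by nlinarith [sq_nonneg (s.re : ℚ), sq_nonneg (s.im : ℚ)]
    have h2 : (s.im : ℚ) = 0 := by nlinarith [sq_nonneg (s.re : ℚ), sq_nonneg (s.im : ℚ)]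
    have h1' : s.re = 0 := by exact_mod_cast h1
    have h2' : s.im = 0 := by exact_mod_cast h2
    rw [GaussianInt.toComplex_def, h1', h2']
    simp
  refine ⟨((a.re : ℚ) * s.re + a.im * s.im) / ((s.re : ℚ) ^ 2 + (s.im : ℚ) ^ 2),
    ((a.im : ℚ) * s.re - a.re * s.im) / ((s.re : ℚ) ^ 2 + (s.im : ℚ) ^ 2), ?_⟩
  have hn' : ((s.re : ℂ) ^ 2 + (s.im : ℂ) ^ 2) ≠ 0 := by exact_mod_cast hn
  have hx : x = GaussianInt.toComplex a / GaussianInt.toComplex s := by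
    rw [eq_div_iff hs0, h]
  rw [hx, div_eq_iff hs0, GaussianInt.toComplex_def, GaussianInt.toComplex_def]
  push_cast
  field_simp
  have : I * I = -1 := I_mul_I
  linear_combination (-((a.im : ℂ) * s.re * s.im - a.re * s.im ^ 2)) * this

theorem QI_countable : QI.Countable := by
  have h : QI = Set.range (fun p : ℚ × ℚ => (p.1 : ℂ) + p.2 * I) := by
    ext z
    constructor
    · rintro ⟨a, b, rfl⟩
      exact ⟨(a, b), rfl⟩
    · rintro ⟨⟨a, b⟩, rfl⟩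
      exact ⟨a, b, rfl⟩
  rw [h]
  exact Set.countable_range _

theorem kk_QU : kk ∈ QU := by
  constructor
  · refine ⟨3 / 5, 4 / 5, ?_⟩
    unfold kk
    rw [div_eq_iff gb_ne]
    unfold ga gb
    have : I * I = -1 := I_mul_I
    push_cast
    linear_combination (4 / 5 : ℂ) * this
  · unfold kk
    rw [norm_div]
    have h : gb = conj ga := by
      unfold ga gb
      rw [map_add, Complex.conj_I, Complex.conj_ofNat, sub_eq_add_neg]
    rw [h, Complex.norm_conj, div_self]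
    exact norm_ne_zero_iff.mpr ga_ne

theorem st_A1 : ST_A1 := by
  refine ⟨fun z hz => ZI_sub_RR hz, fun x hx y hy => ⟨RR_add hx hy, RR_mul hx hy, RR_sub hx hy⟩,
    fun x hx => RR_sub_QI hx, QI_countable.mono (fun x hx => RR_sub_QI hx), kk_QU, ?_, ?_, ?_, ?_,
    ?_, ?_, ?_⟩
  · intro j x hx
    change gb ^ (j + 1) * x ∈ RR
    rw [pow_succ', mul_assoc]
    exact RR_mul gb_RR hx
  · intro j x hx y hy
    change gb ^ j * (x + y) ∈ RR ∧ gb ^ j * (x - y) ∈ RR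
    rw [mul_add, mul_sub]
    exact ⟨RR_add hx hy, RR_sub hx hy⟩
  · intro j x hx y hy
    change gb ^ j * (x * y) ∈ RR
    rw [mul_left_comm]
    exact RR_mul hx hy
  · intro j x
    change gb ^ j * x ∈ RR ↔ gb ^ (j + 1) * (kk * x) ∈ RR
    have e : gb ^ (j + 1) * (kk * x) = ga * (gb ^ j * x) := by
      rw [← gb_mul_kk]
      ring
    rw [e]
    constructor
    · exact fun h => RR_mul ga_RR h
    · intro h
      have := RR_mul ga_inv_RR h
      rwa [inv_mul_cancel_left₀ ga_ne] at this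
  · intro j
    change gb ^ j * kk ^ j ∈ RR
    rw [gb_pow_kk]
    exact RR_pow ga_RR j
  · intro j
    change gb ^ (j + 1) * xj j ∈ RR
    rw [gb_xj]
    exact RR_mul (RR_pow ga_RR j) ga_inv_RR
  · intro j
    change gb ^ j * (5 * xj j) ∈ RR
    have e : gb ^ j * (5 * xj j) = ga ^ j := by
      rw [← gb_pow_kk]
      unfold xj
      ring
    rw [e]
    exact RR_pow ga_RR j

/-- residues modulo `2 - i` -/
theorem exists_residue (P Q : GaussianInt) (hQ : ¬ ((⟨2, -1⟩ : GaussianInt) ∣ Q)) :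
    ∃ a : ℕ, a < 5 ∧ (⟨2, -1⟩ : GaussianInt) ∣ P - a * Q := by
  have : Fact (Nat.Prime 5) := ⟨by norm_num⟩
  rw [dvd_iff] at hQ
  set q : ℤ := Q.re + 2 * Q.im with hq
  set p : ℤ := P.re + 2 * P.im with hp
  have hq0 : (q : ZMod 5) ≠ 0 := by
    intro h
    exact hQ ((ZMod.intCast_zmod_eq_zero_iff_dvd q 5).mp h)
  refine ⟨((p : ZMod 5) * (q : ZMod 5)⁻¹).val, ZMod.val_lt _, ?_⟩
  rw [dvd_iff]
  have h1 : ((p - ((((p : ZMod 5) * (q : ZMod 5)⁻¹).val : ℕ) : ℤ) * q : ℤ) : ZMod 5) = 0 := by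
    push_cast
    rw [ZMod.natCast_zmod_val, mul_assoc, inv_mul_cancel₀ hq0, mul_one, sub_self]
  have h2 := (ZMod.intCast_zmod_eq_zero_iff_dvd _ 5).mp h1
  obtain ⟨c, hc⟩ := h2
  refine ⟨c, ?_⟩
  push_cast at hc
  simp only [Zsqrtd.re_sub, Zsqrtd.im_sub, Zsqrtd.re_mul, Zsqrtd.im_mul, Zsqrtd.re_natCast,
    Zsqrtd.im_natCast]
  rw [← hc, hp, hq]
  ring

theorem st_A2 : ST_A2 := by
  intro j x hx
  obtain ⟨α, s, hs, h⟩ := hx
  -- `P = α (2 + i)`, `Q = (2 + i)^j s`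
  have hQ : ¬ ((⟨2, -1⟩ : GaussianInt) ∣ (⟨2, 1⟩ : GaussianInt) ^ j * s) := by
    have hp : ∀ n : ℕ, ¬ ((⟨2, -1⟩ : GaussianInt) ∣ (⟨2, 1⟩ : GaussianInt) ^ n) := by
      intro n
      induction n with
      | zero => rw [pow_zero]; exact not_dvd_one
      | succ n ih => rw [pow_succ]; exact not_dvd_mul ih not_dvd_ga
    exact not_dvd_mul (hp j) hs
  obtain ⟨a, ha, δ, hδ⟩ := exists_residue (α * ⟨2, 1⟩) _ hQ
  refine ⟨a, ha, δ, s * ⟨2, 1⟩, not_dvd_mul hs not_dvd_ga, ?_⟩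
  have h1 := congrArg GaussianInt.toComplex hδ
  rw [map_sub, map_mul, map_mul, map_mul, map_mul, map_pow, map_natCast, toC_ga, toC_gb, ← h] at h1
  rw [map_mul, toC_ga]
  have h2 := gb_xj j
  have hg : ga ≠ 0 := ga_ne
  have h3 : gb ^ (j + 1) * xj j * ga = ga ^ j := by
    rw [h2, mul_assoc, inv_mul_cancel₀ hg, mul_one]
  apply mul_left_cancel₀ gb_ne
  rw [← h1, ← h3]
  ring

end Pool.Agent.Helper8.RG
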