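import Pool.Agent.Helper13.RG.Stmts

set_option autoImplicit false

open scoped Classical

namespace Pool.Agent.Helper13.RG

open Pool.Agent.Helper14.BSC Pool.Agent.Helper13.ZL

theorem st_CNJ (hAUT : ST_AUT) : ST_CNJ := by
  intro k Ω _ _ _ _ _ D D' hA hA' ψ
  have : Algebra.IsAlgebraic (LL D) Ω := ⟨hA⟩
  have : Algebra.IsAlgebraic (LL D') Ω := ⟨hA'⟩
  have hc : IsAlgClosure (LL D) Ω := ⟨inferInstance, inferInstance⟩
  have hc' : IsAlgClosure (LL D') Ω := ⟨inferInstance, inferInstance⟩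
  -- the extension
  let γr : Ω ≃+* Ω := IsAlgClosure.equivOfEquiv (R := LL D') (S := LL D) Ω Ω ψ.toRingEquiv
  have hγr : ∀ x : LL D, γr (x : Ω) = ((ψ x : LL D') : Ω) := fun x =>
    IsAlgClosure.equivOfEquiv_algebraMap (R := LL D') (S := LL D) Ω Ω ψ.toRingEquiv x
  have hγk : ∀ c : k, γr (algebraMap k Ω c) = algebraMap k Ω c := by
    intro c
    have h := hγr (algebraMap k (LL D) c)
    rw [AlgEquiv.commutes] at h
    exact h
  let γ0 : Ω ≃ₐ[k] Ω := AlgEquiv.ofRingEquiv (f := γr) hγk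
  have hγ0 : ∀ x : LL D, γ0 (x : Ω) = ((ψ x : LL D') : Ω) := hγr
  -- its restriction
  let α : GG k Ω := algebraicClosure.algEquivOfAlgEquiv γ0
  have hα : ∀ a : Acl k Ω, ((α a : Acl k Ω) : Ω) = γ0 (a : Ω) := fun a => rfl
  have hfix : ∀ (E : Sec k Ω) (g : GG k Ω) (x : LL E), E.s g (x : Ω) = x := by
    intro E g x
    exact x.2 g (fun a ha => absurd ha (Set.notMem_empty a))
  have hsinv : ∀ (E : Sec k Ω) (g : GG k Ω) (x : Ω), E.s g (E.s g⁻¹ x) = x := by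
    intro E g x
    rw [← AlgEquiv.mul_apply, ← map_mul, mul_inv_cancel, map_one]
    rfl
  let γ : Ω ≃ₐ[k] Ω := (D.s α⁻¹).trans γ0
  have hγ : ∀ x, γ x = γ0 (D.s α⁻¹ x) := fun x => rfl
  have g1 : ∀ a : Acl k Ω, γ (a : Ω) = a := by
    intro a
    rw [hγ, D.ext, ← hα]
    have : α (α⁻¹ a) = a := by
      rw [← AlgEquiv.mul_apply, mul_inv_cancel]
      rfl
    rw [this]
  have g2 : ∀ x : LL D, γ (x : Ω) = ((ψ x : LL D') : Ω) := by
    intro x
    rw [hγ, hfix, hγ0]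
  refine ⟨γ, g1, g2, ?_⟩
  intro g x
  let τ : Ω ≃ₐ[k] Ω := ((D.s g⁻¹).trans γ).trans ((D'.s g).trans γ.symm)
  have hτ : ∀ x, τ x = γ.symm (D'.s g (γ (D.s g⁻¹ x))) := fun x => rfl
  have t1 : τ = 1 := by
    apply hAUT k Ω D τ
    · intro x
      rw [hτ, hfix, g2, hfix, ← g2, AlgEquiv.symm_apply_apply]
    · intro a
      rw [hτ, D.ext, g1, D'.ext]
      have : g (g⁻¹ a) = a := by
        rw [← AlgEquiv.mul_apply, mul_inv_cancel]
        rfl
      rw [this]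
      conv_lhs => rw [← g1 a]
      rw [AlgEquiv.symm_apply_apply]
  have h := hτ (D.s g x)
  rw [t1] at h
  have h2 : D.s g⁻¹ (D.s g x) = x := by
    rw [← AlgEquiv.mul_apply, ← map_mul, inv_mul_cancel, map_one]
    rfl
  rw [h2] at h
  have h3 : D.s g x = γ.symm (D'.s g (γ x)) := h
  rw [h3, AlgEquiv.apply_symm_apply]

end Pool.Agent.Helper13.RG
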