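import Pool.Agent.Helper13.RG.Stmts

set_option autoImplicit false

open scoped Classical

namespace Pool.Agent.Helper13.RG

open Pool.Agent.Helper14.BSC Pool.Agent.Helper13.ZL

section eqa

variable {k Ω : Type} [Field k] [Field Ω] [Algebra k Ω]

theorem eqa_kum (hKUM : ST_KUM) (hBOT : ST_BOT) [CharZero k] [IsAlgClosed Ω] (D : Sec k Ω)
    (x : LL D) (hx : x ≠ 0) (n : ℕ) (hn : 0 < n) :
    ∃ (a : k) (g : LL D), a ≠ 0 ∧ x = algebraMap k (LL D) a * g ^ n := by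
  obtain ⟨c, hc, y, hy, h⟩ := hKUM k Ω D ∅ n hn x hx
  obtain ⟨a, ha⟩ := hBOT k Ω (c : Acl k Ω) c.2
  refine ⟨a, y, ?_, ?_⟩
  · rintro rfl
    apply hc
    apply Subtype.ext
    rw [ha, map_zero]
    rfl
  · rw [h]
    congr 1
    apply Subtype.ext
    rw [coe_inc, ha]
    rfl

theorem eqa_sub {D : Sec k Ω} {p : ℕ} [Fact p.Prime] {σ : k →+* ℂ_[p]} (P : Place D p σ)
    (x : LL D) (hx : x ∈ P.C) (c : k) :
    ∃ h : x - algebraMap k (LL D) c ∈ P.C, P.φ ⟨_, h⟩ = P.φ ⟨x, hx⟩ - σ c := by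
  obtain ⟨hc, e⟩ := P.base c
  refine ⟨sub_mem hx hc, ?_⟩
  rw [← e, ← map_sub]
  rfl

theorem eqa_nc {D : Sec k Ω} {x : LL D} (hx : NC D x) (c : k) :
    NC D (x - algebraMap k (LL D) c) := by
  intro c' h
  apply hx (c' + c)
  rw [map_add, ← h, sub_add_cancel]

theorem eqa_ne {D : Sec k Ω} {x : LL D} (hx : NC D x) (c : k) :
    x - algebraMap k (LL D) c ≠ 0 := fun h => hx c (sub_eq_zero.1 h)

end eqa

theorem st_EQA (hNUL : ST_NUL) (hCOW : ST_COW) (hDEN : Pool.Agent.Helper13.ZL.ST_DEN)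
    (hKUM : ST_KUM) (hBOT : ST_BOT) (hDLIB : ST_DLIB) : ST_EQA := by
  intro k Ω _ _ _ _ _ D D' hD hD' x y hx hy hCV c
  have e1 : ∀ ℓ : ℕ, 0 < ℓ → ∃ (a : k) (g : LL D), a ≠ 0 ∧
      x - algebraMap k (LL D) c = algebraMap k (LL D) a * g ^ ℓ :=
    fun ℓ hℓ => eqa_kum hKUM hBOT D _ (eqa_ne hx c) ℓ hℓ
  have e2 : ∀ ℓ : ℕ, 0 < ℓ → ∃ (a : k) (g : LL D'), a ≠ 0 ∧
      y - algebraMap k (LL D') c = algebraMap k (LL D') a * g ^ ℓ :=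
    fun ℓ hℓ => eqa_kum hKUM hBOT D' _ (eqa_ne hy c) ℓ hℓ
  choose! a g ha hg using e1
  choose! b g' hb hg' using e2
  refine ⟨{ℓ | ℓ.Prime ∧ ∀ t : k, t ^ ℓ ≠ a ℓ / b ℓ}, ?_, ?_⟩
  · by_contra hns
    obtain ⟨d1, d2, d3, d4⟩ := hDLIB k
    apply hCV
    have hS := hDEN k (CV D D' x y \ (NUV D (x - algebraMap k (LL D) c) ∪
      NUV D' (y - algebraMap k (LL D') c))) (fun ℓ => a ℓ / b ℓ)
      {ℓ | ℓ.Prime ∧ ∀ t : k, t ^ ℓ ≠ a ℓ / b ℓ} (fun ℓ hℓ => hℓ) hns ?_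
    · have hN1 := (hNUL k Ω D hD).2.2.2 _ (eqa_nc hx c)
      have hN2 := (hNUL k Ω D' hD').2.2.2 _ (eqa_nc hy c)
      have hU := d2 _ _ hS (d2 _ _ hN1 hN2)
      refine d1 _ _ ?_ hU
      intro v hv
      by_cases hv2 : v ∈ NUV D (x - algebraMap k (LL D) c) ∪ NUV D' (y - algebraMap k (LL D') c)
      · exact Or.inr hv2
      · exact Or.inl ⟨hv, hv2⟩
    · rintro v ⟨⟨p, hp, σ, P, P', hxC, hyC, hov, hlt⟩, hv2⟩ ℓ hℓ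
      have hℓ0 : 0 < ℓ := hℓ.1.pos
      obtain ⟨h1, v1⟩ := eqa_sub P x hxC c
      obtain ⟨h2, v2⟩ := eqa_sub P' y hyC c
      have n1 : ‖P.φ ⟨_, h1⟩‖ = 1 := by
        by_contra hne
        apply hv2
        left
        refine ⟨p, hp, σ, P, hov, ?_⟩
        rintro ⟨h, h'⟩
        exact hne h'
      refine hCOW k Ω D D' v p σ P P' hov ⟨_, h1⟩ ⟨_, h2⟩ n1 ?_ ℓ hℓ0 (a ℓ) (b ℓ) (g ℓ) (g' ℓ)
        (hg ℓ hℓ0) (hg' ℓ hℓ0)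
      rw [v1, v2]
      have : P.φ ⟨x, hxC⟩ - σ c - (P'.φ ⟨y, hyC⟩ - σ c) = P.φ ⟨x, hxC⟩ - P'.φ ⟨y, hyC⟩ := by ring
      rw [this]
      exact hlt
  · intro ℓ hℓp hℓ
    have hℓ0 : 0 < ℓ := hℓp.pos
    have h3 : ∃ t : k, t ^ ℓ = a ℓ / b ℓ := by
      by_contra hne
      push Not at hne
      exact hℓ ⟨hℓp, hne⟩
    obtain ⟨t, ht⟩ := h3
    refine ⟨b ℓ, algebraMap k (LL D) t * g ℓ, g' ℓ, ?_, hg' ℓ hℓ0⟩
    rw [hg ℓ hℓ0, mul_pow, ← map_pow, ht, ← mul_assoc, ← map_mul, mul_div_cancel₀ _ (hb ℓ hℓ0)]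

end Pool.Agent.Helper13.RG
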